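import Mathlib

set_option autoImplicit false

namespace Pool.Agent.Results.MP_0168d2_co.FourLetters

/-- A language on the alphabet `α` (the set of all its words; `L_n` is the set of words of
length `n`): it contains the empty word, is factorial and extendable. -/
def IsLanguage {α : Type} (L : Set (List α)) : Prop :=
  [] ∈ L ∧ (∀ (a : α) (u : List α), a :: u ∈ L → u ∈ L) ∧
  (∀ (u : List α) (b : α), u ++ [b] ∈ L → u ∈ L) ∧
  ∀ v ∈ L, (∃ a, a :: v ∈ L) ∧ ∃ b, v ++ [b] ∈ L

/-- `w` is bispecial in `L`. -/
def Bispecial {α : Type} (L : Set (List α)) (w : List α) : Prop :=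
  w ∈ L ∧ (∃ a a', a ≠ a' ∧ a :: w ∈ L ∧ a' :: w ∈ L) ∧
  ∃ b b', b ≠ b' ∧ w ++ [b] ∈ L ∧ w ++ [b'] ∈ L

/-- the order condition for the pair `(ltA, ltD)` -/
def OrderCondition {α : Type} (L : Set (List α)) (ltA ltD : α → α → Prop) : Prop :=
  ∀ v, Bispecial L v → ∀ x x' y y', x :: (v ++ [y]) ∈ L → x' :: (v ++ [y']) ∈ L →
    x ≠ x' → y ≠ y' → (ltA x x' ↔ ltD y y')

/-- `a < a'` are consecutive letters for `lt` -/
def Consecutive {α : Type} (lt : α → α → Prop) (a a' : α) : Prop :=
  lt a a' ∧ ∀ c, ¬ (lt a c ∧ lt c a')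

/-- the word `w` has a connection -/
def Connection {α : Type} (L : Set (List α)) (ltA ltD : α → α → Prop) (w : List α) : Prop :=
  ∃ a a' b b', Consecutive ltA a a' ∧ Consecutive ltD b b' ∧
    a :: (w ++ [b]) ∈ L ∧ a' :: (w ++ [b']) ∈ L ∧ a :: (w ++ [b']) ∉ L ∧ a' :: (w ++ [b]) ∉ L

/-- palindromic complexity -/
noncomputable def PC {α : Type} (L : Set (List α)) (n : ℕ) : ℕ :=
  Set.ncard {w | w ∈ L ∧ w.length = n ∧ w.reverse = w}

/-- allowed two-letter words -/
def R (a b : Fin 4) : Prop := a = 2 ∨ (a = 3 ∧ b = 0) ∨ (a ≠ 3 ∧ b = 3)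

instance : DecidableRel R := fun a b => by unfold R; infer_instance

/-- the counterexample: all words whose two-letter factors are allowed -/
def LL : Set (List (Fin 4)) := {w | List.IsChain R w}

lemma R_left : ∀ a : Fin 4, ∃ c, R c a := by decide

lemma R_right : ∀ a : Fin 4, ∃ c, R a c := by decide

lemma R_unique : ∀ a b b' : Fin 4, a ≠ 2 → R a b → R a b' → b = b' := by decide

lemma R_two : ∀ a : Fin 4, R a 2 → a = 2 := by decide

lemma LL_language : IsLanguage LL := by
  refine ⟨List.isChain_nil, ?_, ?_, ?_⟩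
  · intro a u h
    exact List.IsChain.tail h
  · intro u b h
    exact List.IsChain.left_of_append h
  · intro v hv
    constructor
    · cases v with
      | nil => exact ⟨0, List.isChain_singleton _⟩
      | cons x v =>
        obtain ⟨c, hc⟩ := R_left x
        exact ⟨c, List.isChain_cons_cons.2 ⟨hc, hv⟩⟩
    · rcases List.eq_nil_or_concat v with rfl | ⟨u, x, rfl⟩
      · exact ⟨0, List.isChain_singleton _⟩
      · obtain ⟨c, hc⟩ := R_right x
        refine ⟨c, ?_⟩
        show List.IsChain R _
        rw [List.isChain_append]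
        refine ⟨hv, List.isChain_singleton _, ?_⟩
        intro y hy z hz
        simp at hy hz
        subst hy hz
        exact hc

lemma last_two (v : List (Fin 4)) (h : List.IsChain R (v ++ [2])) : ∀ x ∈ v, x = 2 := by
  induction v with
  | nil => simp
  | cons a v ih =>
    rw [List.cons_append] at h
    have h1 := ih (List.IsChain.tail h)
    intro x hx
    rw [List.mem_cons] at hx
    rcases hx with rfl | hx
    · cases v with
      | nil => exact R_two _ (List.isChain_cons_cons.1 h).1
      | cons b v =>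
        have h2 := h1 b (by simp)
        subst h2
        rw [List.cons_append] at h
        exact R_two _ (List.isChain_cons_cons.1 h).1
    · exact h1 x hx

lemma bispecial_nil (w : List (Fin 4)) (h : Bispecial LL w) : w = [] := by
  obtain ⟨hw, ⟨a, a', haa, ha, ha'⟩, b, b', hbb, hb, hb'⟩ := h
  rcases List.eq_nil_or_concat w with rfl | ⟨u, x, hux⟩
  · rfl
  · exfalso
    rw [List.concat_eq_append] at hux
    subst hux
    by_cases hx : x = 2
    · subst hx
      have h1 := last_two u hw
      have h2 : ∀ c : Fin 4, c :: (u ++ [2]) ∈ LL → c = 2 := by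
        intro c hc
        cases u with
        | nil => exact R_two _ (List.isChain_cons_cons.1 hc).1
        | cons y u =>
          have h3 := h1 y (by simp)
          subst h3
          exact R_two _ (List.isChain_cons_cons.1 hc).1
      exact haa ((h2 a ha).trans (h2 a' ha').symm)
    · have h2 : ∀ c : Fin 4, (u ++ [x]) ++ [c] ∈ LL → R x c := by
        intro c hc
        have h3 : List.IsChain R ((u ++ [x]) ++ [c]) := hc
        rw [List.isChain_append] at h3
        exact h3.2.2 x (by simp) c (by simp)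
      exact hbb (R_unique x b b' hx (h2 b hb) (h2 b' hb'))

lemma pair_mem (a b : Fin 4) : a :: ([] ++ [b]) ∈ LL ↔ R a b := by
  show List.IsChain R [a, b] ↔ R a b
  simp

lemma order_fin : ∀ x x' y y' : Fin 4, R x y → R x' y' → x ≠ x' → y ≠ y' →
    (x < x' ↔ y' < y) := by decide

lemma conn_fin : ∀ a a' b b' : Fin 4, (a < a' ∧ ∀ c, ¬ (a < c ∧ c < a')) →
    (b' < b ∧ ∀ c, ¬ (c < b ∧ b' < c)) → R a b → R a' b' → R a b' ∨ R a' b := by decide

lemma PC_three : PC LL 3 = 3 := by
  unfold PC
  have h : {w : List (Fin 4) | w ∈ LL ∧ w.length = 3 ∧ w.reverse = w} =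
      (({[0, 3, 0], [3, 0, 3], [2, 2, 2]} : Finset (List (Fin 4))) : Set (List (Fin 4))) := by
    ext w
    simp only [Set.mem_ofPred_eq, Finset.coe_insert, Finset.coe_singleton, Set.mem_insert_iff,
      Set.mem_singleton_iff]
    constructor
    · rintro ⟨h1, h2, h3⟩
      match w, h2 with
      | [a, b, c], _ =>
        have h4 : a = c := by
          simp at h3
          exact h3.1.symm
        subst h4
        have h5 : List.IsChain R [a, b, a] := h1
        rw [List.isChain_cons_cons, List.isChain_cons_cons] at h5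
        obtain ⟨h6, h7, _⟩ := h5
        have : ∀ a b : Fin 4, R a b → R b a →
            ([a, b, a] = [0, 3, 0] ∨ [a, b, a] = [3, 0, 3] ∨ [a, b, a] = [2, 2, 2]) := by decide
        exact this a b h6 h7
    · rintro (rfl | rfl | rfl)
      · exact ⟨by show List.IsChain R _; decide, rfl, rfl⟩
      · exact ⟨by show List.IsChain R _; decide, rfl, rfl⟩
      · exact ⟨by show List.IsChain R _; decide, rfl, rfl⟩
  rw [h, Set.ncard_coe_finset]
  decide

/-- **Negative answer to Q1 of MP_0168d2_co.** There is a language on `4` letters which satisfies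
the order condition for a symmetric pair of strict total orders and has no connection, but
`PC(3) = 3 < 4`. -/
theorem result : ∃ (L : Set (List (Fin 4))) (ltA ltD : Fin 4 → Fin 4 → Prop),
    IsStrictTotalOrder (Fin 4) ltA ∧ IsStrictTotalOrder (Fin 4) ltD ∧
    (∀ x y, ltD x y ↔ ltA y x) ∧ IsLanguage L ∧ (∀ a, [a] ∈ L) ∧ OrderCondition L ltA ltD ∧
    (∀ w, Bispecial L w → ¬ Connection L ltA ltD w) ∧ PC L 3 = 3 := by
  refine ⟨LL, (· < ·), fun x y => y < x, inferInstance, ?_, fun x y => Iff.rfl, LL_language,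
    fun a => List.isChain_singleton _, ?_, ?_, PC_three⟩
  · exact inferInstanceAs (IsStrictTotalOrder (Fin 4) (fun x y => x > y))
  · intro v hv x x' y y' h1 h2 h3 h4
    have := bispecial_nil v hv
    subst this
    rw [pair_mem] at h1 h2
    exact order_fin x x' y y' h1 h2 h3 h4
  · rintro w hw ⟨a, a', b, b', h1, h2, h3, h4, h5, h6⟩
    have := bispecial_nil w hw
    subst this
    rw [pair_mem] at h3 h4 h5 h6
    rcases conn_fin a a' b b' h1 h2 h3 h4 with h | h
    · exact h5 h
    · exact h6 h

end Pool.Agent.Results.MP_0168d2_co.FourLetters
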